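import Pool.Agent.Helper43.UN.GoalsH
import Pool.Agent.Helper50.SG.T4

/-!
# UN packet MN1 (MP_d3128a_ag, project of helper43): the cubic
-/

set_option autoImplicit false

namespace Pool.Agent.Helper83.UN

open Finset
open Pool.Agent.Helper43.UN
open Pool.Agent.Lead.Sh
open Pool.Agent.Helper43.Ah (rowsD)
open Pool.Agent.Helper18.UW (lg)
open Pool.Agent.Helper18.SG (GoalT1)
open Helper18.Cusp (Red rr kap GoodFor Concl tr tr_lt red_tr cubic_finish DS mem_DS rr_zero)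

theorem mem_rowsD' {R : ℕ} {lam : ℕ → ℕ} {x : ℕ × ℕ} :
    x ∈ rowsD R lam ↔ x.2 < R ∧ x.1 < lam x.2 := by
  unfold rowsD
  simp only [mem_biUnion, mem_range, mem_image]
  constructor
  · rintro ⟨y, hy, t, ht, rfl⟩
    exact ⟨hy, ht⟩
  · rintro ⟨h1, h2⟩
    exact ⟨x.2, h1, x.1, h2, rfl⟩

theorem goalMN1 : GoalMN1 := by
  intro hRed hSh hT1 hT1c s m d hm hs hd h9 hlt h32 hbig hkap hne
  obtain ⟨hsum, hR⟩ := red_tr hm hd (j := 9) (by norm_num) le_rfl hlt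
  have h0 : tr m 9 0 = m 0 := tr_lt (by norm_num)
  have h7 : tr m 9 7 = m 7 := tr_lt (by norm_num)
  have h8 : tr m 9 8 = m 8 := tr_lt (by norm_num)
  -- the last stage
  obtain ⟨c, hc1, hc2⟩ : ∃ c, (m 0 - c) + 3 * c ≤ d ∧ d ≤ 64 * (c + 1) := by
    rcases Nat.lt_or_ge (m 0) ((d - m 0) / 2) with h | h
    · exact ⟨d / 3, by omega, by omega⟩
    · exact ⟨(d - m 0) / 2, by omega, by omega⟩
  obtain ⟨τ, hτ1, hτ2⟩ := Pool.Agent.Helper50.SG.exists_tau hT1 hc1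
  have hτ := hτ2 _ hR h0
  have hdτ : d ≤ 64 * (τ + 1) := hc2.trans (Nat.mul_le_mul_left _ (by omega))
  have e6 : 2 ^ 406 * lg (m 9) ^ 3 * m 9 = 64 * (2 ^ 400 * lg (m 9) ^ 3 * m 9) := by
    have h : (2 : ℕ) ^ 406 = 2 ^ 6 * 2 ^ 400 := by rw [← pow_add]
    rw [h]; ring
  have hkd : kap d (tr m 9) = 3 * d - ∑ i ∈ range 9, m i := by
    unfold kap
    rw [hsum]
  have hk1 : 2 ^ 400 * lg (m 9) ^ 3 * m 9 ≤ kap d (tr m 9) := by
    rw [hkd]
    exact Nat.le_sub_of_add_le hkap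
  have hk2 : 2 ^ 400 * lg (m 9) ^ 3 * m 9 ≤ τ + 1 := by
    rw [e6] at hbig
    exact Nat.le_of_mul_le_mul_left (hbig.trans hdτ) (by norm_num)
  have hk3 : kap d (tr m 9) ≤ 2 ^ 8 * (τ + 1) := by
    rw [hkd]
    omega
  have hShape := hSh hT1 hT1c d (m 9) τ (tr m 9) hR h9 (by rw [h8]; exact hm (by norm_num)) hτ
    (by rw [h0, h7]; exact hne) hk1 hk2 hk3
  have hGood := hRed ∅ (Ico 9 s) m (m 9) (m 9) (τ + 1) (kap d (tr m 9)) 0 (rr d (tr m 9)) hShape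
    (disjoint_empty_left _) (fun k hk => absurd hk (notMem_empty k))
    (fun k hk => hm (mem_Ico.1 hk).1) (by rw [sum_empty]; exact Nat.zero_le _)
  rw [empty_union] at hGood
  apply cubic_finish s m d 9 hm hs le_rfl hR
  have hD : DS (d : ℤ) (tr m 9) (d + 1) = rowsD (τ + 1) (rr d (tr m 9)) := by
    ext x
    rw [mem_DS, mem_rowsD']
    constructor
    · rintro ⟨h1, h2⟩
      have := (hτ x.2).1 (lt_of_le_of_lt (Nat.zero_le _) h2)
      exact ⟨by omega, h2⟩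
    · rintro ⟨h1, h2⟩
      refine ⟨?_, h2⟩
      by_contra hcon
      rw [rr_zero (by omega)] at h2
      exact Nat.not_lt_zero _ h2
  rw [hD]
  exact hGood

end Pool.Agent.Helper83.UN
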